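import Pool.Agent.LRG.StmtsB3

/-!
# Squad LRG, row STP: the counting theorem on a chart
-/

set_option autoImplicit false

open Polynomial

namespace Pool.Agent.LRG.H69

theorem depW_mono {E E' m k : ℕ} {T : Finset (Fin (m + k) → ℤ)} (h : DepW E T) (hE : E ≤ E') :
    DepW E' T := by
  obtain ⟨g, h0, h1, h2⟩ := h
  exact ⟨g, h0, h1.trans hE, h2⟩

theorem rob_mono {E E' m k : ℕ} {L L' : ℝ} {T : Finset (Fin (m + k) → ℤ)} (h : Rob E' L' T)
    (hE : E ≤ E') (hL : L ≤ L') : Rob E L T := by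
  intro T' hT' hc hd
  refine h T' hT' (hc.trans ?_) (depW_mono hd hE)
  exact mul_le_mul_of_nonneg_right hL (by positivity)

theorem depW_singleton (n k : ℕ) (x : Fin (n + 1 + k) → ℤ) :
    DepW (m := n + 1) (k := k) 1 {x} := by
  refine ⟨MvPolynomial.X 0 - MvPolynomial.C (wv x 0), ?_, ?_, ?_⟩
  · intro h
    have h1 := congrArg (MvPolynomial.eval (fun _ => wv x 0 + 1)) h
    simp at h1
  · refine (MvPolynomial.totalDegree_sub _ _).trans ?_
    rw [MvPolynomial.totalDegree_X, MvPolynomial.totalDegree_C]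
    simp
  · intro y hy
    rw [Finset.mem_singleton] at hy
    subst hy
    simp

theorem norm_lt_one_of_dvd {p : ℕ} [Fact p.Prime] {a : ℤ} (h : (p : ℤ) ∣ a) :
    ‖(a : ℤ_[p])‖ < 1 := by
  have h1 := PadicInt.norm_int_lt_one_iff_dvd (p := p) a
  push_cast at h1
  exact h1.2 h

theorem aeval_inst {σ O : Type} [CommRing O] (i₁ i₂ : Algebra ℤ O) (x : σ → O)
    (q : MvPolynomial σ ℤ) :
    @MvPolynomial.aeval ℤ O σ _ _ i₁ x q = @MvPolynomial.aeval ℤ O σ _ _ i₂ x q := by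
  rw [Subsingleton.elim i₁ i₂]

theorem stp (hTOX : ToxConcl) (hTRL : TrlStmt) (hHSX : H.HsxStmt) (hTAS : TasConcl)
    (hEVP : EvpStmt) (hEVU : EvuStmt) (hCAL : CalStmt) (hPIG : PigStmt) : StpConcl := by
  intro p hp m k E K₀ hm F θ hθ
  obtain ⟨n, rfl⟩ : ∃ n, m = n + 1 := ⟨m - 1, by omega⟩
  obtain ⟨D, hD⟩ := hTOX (n + 1) k E
  obtain ⟨δ, hδ⟩ := hTRL D (n + 1) k
  obtain ⟨DH, hH⟩ := hHSX (n + 1) k E
  obtain ⟨e₁, C₁, hC₁, hT⟩ := hTAS p n k D F θ hθ
  set N : ℕ := 8 * (k + 1) * ((K₀ + 1) * (E ^ k + 1)) with hN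
  refine ⟨max 1 (max e₁ (DH δ)), max C₁ N, le_trans hC₁ (le_max_left _ _), ?_⟩
  intro X hX T G hTne hTX hF hchart hrob
  have hX1 : 1 ≤ (X : ℝ) ^ θ := Real.one_le_rpow (by exact_mod_cast hX) hθ.le
  have hNL : (N : ℝ) ≤ max C₁ N * (X : ℝ) ^ θ := by
    calc (N : ℝ) ≤ max C₁ N := le_max_right _ _
      _ = max C₁ N * 1 := (mul_one _).symm
      _ ≤ _ := mul_le_mul_of_nonneg_left hX1 (le_trans (Nat.cast_nonneg N) (le_max_right _ _))
  -- small sets
  have hsmall : ∀ Z ⊆ T, DepW (max 1 (max e₁ (DH δ))) Z → N * Z.card ≤ T.card := by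
    intro Z hZ hd
    by_contra hlt
    push_neg at hlt
    refine hrob Z hZ ?_ hd
    have h1 : (T.card : ℝ) ≤ N * Z.card := by exact_mod_cast hlt.le
    exact h1.trans (mul_le_mul_of_nonneg_right hNL (by positivity))
  obtain ⟨x₀, hx₀⟩ := hTne
  have hTbig : N ≤ T.card := by
    have h1 := hsmall {x₀} (Finset.singleton_subset_iff.2 hx₀)
      (depW_mono (depW_singleton n k x₀) (le_max_left _ _))
    rwa [Finset.card_singleton, mul_one] at h1
  obtain ⟨s, hs, hrels⟩ := hD T G hchart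
  obtain ⟨q, hqd, hq⟩ := hδ s
  have hqT : ∀ j, ∀ x ∈ T, MvPolynomial.eval x (q j) = 0 := by
    intro j x hx
    have h1 := (hq ℤ x).1 (hrels x hx) j
    rw [aeval_inst _ (Algebra.id ℤ)] at h1
    rw [MvPolynomial.aeval_eq_eval] at h1
    exact h1
  obtain ⟨ψ, χ, j₀, hχ0, heq, hAex⟩ := hT s (fun j _ => hs p hp.out j)
  obtain ⟨φ₀, -⟩ := hF x₀ hx₀
  haveI : Nonempty (MvPowerSeries (Fin (n + 1 + k)) ℤ_[p] →ₐ[ℤ_[p]] ℤ_[p]) := ⟨φ₀⟩
  have hF' : ∀ x : Fin (n + 1 + k) → ℤ, x ∈ T →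
      ∃ φ : MvPowerSeries (Fin (n + 1 + k)) ℤ_[p] →ₐ[ℤ_[p]] ℤ_[p],
        (∀ i, φ (MvPowerSeries.X i) = x i) ∧ φ F = 0 := hF
  choose! Φ hΦ using hF'
  obtain ⟨A, hAT, hAcard, hAmem⟩ := hAex X hX T ⟨x₀, hx₀⟩ hTX hrels
    (rob_mono hrob ((le_max_left _ _).trans (le_max_right _ _))
      (mul_le_mul_of_nonneg_right (le_max_left _ _) (le_trans zero_le_one hX1)))
    Φ (fun x hx => (hΦ x hx).1)
  obtain ⟨ξ, cls, hξ, hcls, hρ⟩ := hH p T G hchart
  choose ρ hρ0 hρd hρv using fun j => hρ δ (q j) (hqd j) (hqT j)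
  set Z : Fin k → Finset (Fin (n + 1 + k) → ℤ) := fun j =>
    T.filter fun x => MvPolynomial.eval (wv x) (ρ j) = 0 with hZdef
  have hZ : ∀ j, N * (Z j).card ≤ T.card := fun j =>
    hsmall (Z j) (Finset.filter_subset _ _)
      ⟨ρ j, hρ0 j, (hρd j).trans ((le_max_right _ _).trans (le_max_right _ _)), fun x hx =>
        (Finset.mem_filter.1 hx).2⟩
  set T' := T \ (A ∪ Finset.univ.biUnion Z) with hT'
  have hcardT' : (E ^ k + 1) * K₀ < T'.card := by
    have h1 : T.card ≤ T'.card + (A.card + ∑ j, (Z j).card) := by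
      have h2 : T ⊆ T' ∪ (A ∪ Finset.univ.biUnion Z) := by
        intro x hx
        by_cases h : x ∈ A ∪ Finset.univ.biUnion Z
        · exact Finset.mem_union_right _ h
        · exact Finset.mem_union_left _ (Finset.mem_sdiff.2 ⟨hx, h⟩)
      refine (Finset.card_le_card h2).trans ((Finset.card_union_le _ _).trans ?_)
      refine Nat.add_le_add_left ((Finset.card_union_le _ _).trans ?_) _
      exact Nat.add_le_add_left Finset.card_biUnion_le _
    have h3 : 8 * (k + 1) * ∑ j, (Z j).card ≤ k * T.card := by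
      rw [Finset.mul_sum]
      calc ∑ j, 8 * (k + 1) * (Z j).card ≤ ∑ _j : Fin k, T.card := by
            refine Finset.sum_le_sum fun j _ => le_trans ?_ (hZ j)
            rw [hN]
            refine Nat.mul_le_mul_right _ ?_
            exact Nat.le_mul_of_pos_right _ (by positivity)
        _ = k * T.card := by simp
    have h4 : 8 * ∑ j, (Z j).card ≤ T.card := by
      have h5 : (k + 1) * (8 * ∑ j, (Z j).card) ≤ (k + 1) * T.card := by
        calc (k + 1) * (8 * ∑ j, (Z j).card) = 8 * (k + 1) * ∑ j, (Z j).card := by ring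
          _ ≤ k * T.card := h3
          _ ≤ (k + 1) * T.card := Nat.mul_le_mul_right _ (Nat.le_succ k)
      exact Nat.le_of_mul_le_mul_left h5 (Nat.succ_pos k)
    have h6 : 8 * ((K₀ + 1) * (E ^ k + 1)) ≤ T.card := by
      refine le_trans ?_ hTbig
      rw [hN]
      refine Nat.mul_le_mul_right _ ?_
      omega
    have h7 : (E ^ k + 1) * K₀ < (K₀ + 1) * (E ^ k + 1) := by
      have : 0 < E ^ k + 1 := Nat.succ_pos _
      nlinarith
    omega
  obtain ⟨y, hyinj, hyT', hycls⟩ := hPIG _ T' (E ^ k + 1) K₀ cls hcardT'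
  have hT'T : T' ⊆ T := Finset.sdiff_subset
  -- `F` vanishes on the arcs of the points of `T'`
  have hvan : ∀ x ∈ T', ∃ Ψ : MvPowerSeries (Fin (n + 1 + k)) ℤ_[p] →ₐ[ℤ_[p]] PowerSeries ℤ_[p],
      (∀ i, Ψ (MvPowerSeries.X i) = ξ x i) ∧ Ψ F = 0 := by
    intro x hx
    have hxT := hT'T hx
    have hxn := (Finset.mem_sdiff.1 hx).2
    rw [Finset.mem_union, not_or] at hxn
    obtain ⟨hxA, hxZ⟩ := hxn
    have hrel : Rels D (fun j α => (s j α : PowerSeries ℤ_[p])) k (ξ x) := by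
      rw [hq]
      intro j
      rw [aeval_inst _ (MvPowerSeries.instAlgebra : Algebra ℤ (PowerSeries ℤ_[p]))]
      refine hρv j x hxT ?_
      intro h0
      exact hxZ (Finset.mem_biUnion.2 ⟨j, Finset.mem_univ _, Finset.mem_filter.2 ⟨hxT, h0⟩⟩)
    obtain ⟨Ψ, hΨ⟩ := hEVP p (Fin (n + 1 + k)) (ξ x) (fun i => by
      rw [(hξ x hxT).1 i]
      exact norm_lt_one_of_dvd (hTX x hxT i).2)
    refine ⟨Ψ, hΨ, ?_⟩
    have h1 := heq (PowerSeries ℤ_[p]) (Ψ : MvPowerSeries (Fin (n + 1 + k)) ℤ_[p] →+*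
      PowerSeries ℤ_[p]) (by
        have : (fun i => (Ψ : MvPowerSeries (Fin (n + 1 + k)) ℤ_[p] →+* PowerSeries ℤ_[p])
            (MvPowerSeries.X i)) = ξ x := funext fun i => hΨ i
        rw [this]
        exact hrel)
    let Θ : MvPowerSeries (Fin (n + 1 + k)) ℤ_[p] →ₐ[ℤ_[p]] ℤ_[p] :=
      { (PowerSeries.constantCoeff (R := ℤ_[p])).comp
          (Ψ : MvPowerSeries (Fin (n + 1 + k)) ℤ_[p] →+* PowerSeries ℤ_[p]) with
        commutes' := by
          intro a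
          simp }
    have hΘ : ∀ f, Θ f = PowerSeries.constantCoeff (Ψ f) := fun f => rfl
    have hΘΦ : Θ = Φ x := by
      apply hEVU p _ Θ (Φ x)
      · intro i
        rw [hΘ, hΨ, (hξ x hxT).1 i, (hΦ x hxT).1 i]
      · intro i
        rw [hΘ, hΨ, (hξ x hxT).1 i]
        exact norm_lt_one_of_dvd (hTX x hxT i).2
    refine hCAL _ _ _ _ (PowerSeries.constantCoeff (R := ℤ_[p])) χ (Ψ F) j₀ hχ0 h1 ?_ ?_
    · rw [← hΘ, hΘΦ]
      exact (hΦ x hxT).2
    · change PowerSeries.constantCoeff (Ψ (ψ (χ.coeff j₀))) ≠ 0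
      rw [← hΘ, hΘΦ]
      intro h0
      exact hxA (hAmem x hxT h0)
  refine ⟨y, ξ (y 0), hyinj, fun a => hT'T (hyT' a), (hξ _ (hT'T (hyT' 0))).1,
    (hξ _ (hT'T (hyT' 0))).2, hvan _ (hyT' 0), ?_⟩
  intro Q hQ a
  have h1 := hcls (y 0) (hT'T (hyT' 0)) (y a) (hT'T (hyT' a)) (hycls a).symm Q hQ
  have h2 := congrArg (PowerSeries.constantCoeff (R := ℤ_[p])) h1
  rw [map_zero] at h2
  have h3 : PowerSeries.constantCoeff (MvPolynomial.aeval (ξ (y a)) Q) =
      ((MvPolynomial.eval (y a) Q : ℤ) : ℤ_[p]) := by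
    rw [MvPolynomial.aeval_def, MvPolynomial.hom_eval₂]
    have h4 : (fun i => PowerSeries.constantCoeff (ξ (y a) i)) = fun i => ((y a i : ℤ) : ℤ_[p]) :=
      funext fun i => (hξ _ (hT'T (hyT' a))).1 i
    have h5 : ((MvPolynomial.eval (y a) Q : ℤ) : ℤ_[p]) =
        (Int.castRingHom ℤ_[p]) (MvPolynomial.eval₂ (RingHom.id ℤ) (y a) Q) := rfl
    rw [h5, MvPolynomial.hom_eval₂]
    have h6 : ((PowerSeries.constantCoeff (R := ℤ_[p])).comp
        (algebraMap ℤ (PowerSeries ℤ_[p]))) = (Int.castRingHom ℤ_[p]).comp (RingHom.id ℤ) :=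
      RingHom.ext_int _ _
    rw [h6]
    congr 1
  rw [h3] at h2
  exact_mod_cast h2

end Pool.Agent.LRG.H69
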