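import Pool.Agent.Helper92_LRG.ACP
import Pool.Agent.Helper88_LRG.ACM
import Pool.Agent.Helper32_LRG.RGM
import Pool.Agent.Helper24_LRG.WDV
import Pool.Agent.Helper26_LRG.JTR
import Pool.Agent.Helper7_LRG.FGX
import Pool.Agent.Helper80_LRG.INT
import Pool.Agent.Helper38_LRG.NOM
import Pool.Agent.Helper27_LRG.UNQ
import Pool.Agent.Helper32_LRG.CHX
import Pool.Agent.Helper48_LRG.TRP
import Pool.Agent.Helper77_LRG.NRP
import Pool.Agent.Helper88_LRG.LDP
import Pool.Agent.Helper92_LRG.RPR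
import Pool.Agent.Helper42_LRG.DTA
import Pool.Agent.Helper62_LRG.DTX
import Pool.Agent.Helper6_LRG.DTM
import Pool.Agent.Helper62_LRG.NMM
import Pool.Agent.Helper16_LRG.ABM
import Pool.Agent.Helper94_LRG.DMM
import Pool.Agent.Helper48_LRG.TRL
import Pool.Agent.Helper72_LRG.TOX
import Pool.Agent.Helper65_LRG.GVP
import Pool.Agent.Helper5_LRG.EVP
import Pool.Agent.Helper95_LRG.EVU
import Pool.Agent.Helper77_LRG.CAL
import Pool.Agent.Helper7_LRG.PIG
import Pool.Agent.Helper94_LRG.LAR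
import Pool.Agent.Helper2_LRG.TAS
import Pool.Agent.Helper69_LRG.STP
import Pool.Agent.Helper88_LRG.PPW
import Pool.Agent.Helper23_LRG.TPB
import Pool.Agent.Helper74_LRG.AssR
import Pool.Agent.Helper98_LRG.AssH
import Pool.Agent.Helper89_LUB.EVH
import Pool.Agent.Helper22_LUB.DEP
import Pool.Agent.Helper77_LPW.DIV

/-!
# Squad LRG, assembly of block B: the `p`-adic counting theorem
-/

set_option autoImplicit false

namespace Pool.Agent.LRG.AssB

theorem acmConcl : AcmConcl := Pool.Agent.LRG.H88.acm Pool.Agent.Helper92_LRG.acp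

theorem wdvConcl : WdvConcl := Pool.Agent.LRG.H24.wdv acmConcl Pool.Agent.LRG.H32.rgm

theorem fgxConcl : FgxConcl :=
  Pool.Agent.LRG.H7.fgx wdvConcl Pool.Agent.LRG.H26.jtr

theorem chxConcl : ChxConcl :=
  Pool.Agent.LRG.H32.chx acmConcl fgxConcl Pool.Agent.LRG.H80.int Pool.Agent.LRG.H26.jtr
    Pool.Agent.LRG.H38.nom Pool.Agent.LRG.H27.unq Pool.Agent.LUB.H89.evh

theorem ldpConcl : LdpConcl := Pool.Agent.LRG.H88.ldp Pool.Agent.LRG.H48.trp Pool.Agent.LRG.H77.nrp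

theorem rprConcl : RprConcl :=
  Pool.Agent.Helper92_LRG.rpr Pool.Agent.LRG.H48.trp ldpConcl Pool.Agent.LPW.H77.div

theorem dtmConcl : DtmConcl := Pool.Agent.LRG.H6.dtm Pool.Agent.LRG.H42.dta Pool.Agent.LRG.H62.dtx

theorem abmConcl : AbmConcl := Pool.Agent.LRG.H16.abm Pool.Agent.LUB.H22.dep

theorem dmmConcl : DmmConcl :=
  Pool.Agent.LRG.H94.dmm rprConcl dtmConcl Pool.Agent.LRG.H62.nmm abmConcl

theorem toxConcl : ToxConcl := Pool.Agent.LRG.H72.tox Pool.Agent.LRG.H74.relConcl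

theorem tasConcl : TasConcl :=
  Pool.Agent.LRG.H2.tas chxConcl dmmConcl Pool.Agent.LRG.H26.jtr Pool.Agent.LRG.H48.trl
    Pool.Agent.LRG.H65.gvp Pool.Agent.LRG.H94.lar

theorem stpConcl : StpConcl :=
  Pool.Agent.LRG.H69.stp toxConcl Pool.Agent.LRG.H48.trl Pool.Agent.LRG.H98.hsx tasConcl
    Pool.Agent.LRG.H5.evp Pool.Agent.LRG.H95.evu Pool.Agent.LRG.H77.cal Pool.Agent.LRG.H7.pig

theorem ppwStmt : PpwStmt :=
  Pool.Agent.LRG.H88.ppw Pool.Agent.LRG.H74.schConcl stpConcl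

theorem ppwConcl : PpwConcl :=
  Pool.Agent.LRG.H23.tpb ppwStmt

end Pool.Agent.LRG.AssB
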